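import Mathlib

open Set Cardinal

namespace Run7.h660

universe u

/-- `X` is metalindelöf: every open cover has a point-countable open refinement. -/
def Metalindelof (X : Type u) [TopologicalSpace X] : Prop :=
  ∀ 𝒰 : Set (Set X), (∀ U ∈ 𝒰, IsOpen U) → ⋃₀ 𝒰 = Set.univ →
    ∃ 𝒱 : Set (Set X), (∀ V ∈ 𝒱, IsOpen V) ∧ ⋃₀ 𝒱 = Set.univ ∧
      (∀ V ∈ 𝒱, ∃ U ∈ 𝒰, V ⊆ U) ∧ ∀ x : X, {V | V ∈ 𝒱 ∧ x ∈ V}.Countable

/-- Every subspace of `X` is metalindelöf. -/
def HereditarilyMetalindelof (X : Type u) [TopologicalSpace X] : Prop :=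
  ∀ Y : Set X, Metalindelof Y

/-- `κ` is a measurable cardinal: it is uncountable and there is a nonprincipal
`κ`-complete ultrafilter on (a set of cardinality) `κ`. -/
def IsMeasurableCardinal (κ : Cardinal.{u}) : Prop :=
  ℵ₀ < κ ∧ ∃ U : Ultrafilter κ.out, (∀ x, {x} ∉ U) ∧
    ∀ S : Set (Set κ.out), (∀ s ∈ S, s ∈ U) → #S < κ → ⋂₀ S ∈ U

/-- `X` is a Radon space: every finite Borel measure on `X` is inner regular with respect to
compact sets on all Borel sets. -/
def IsRadonSpace (X : Type u) [TopologicalSpace X] : Prop :=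
  ∀ μ : @MeasureTheory.Measure X (borel X), μ Set.univ < ⊤ →
    ∀ B : Set X, @MeasurableSet X (borel X) B →
      μ B = sSup {r | ∃ K : Set X, K ⊆ B ∧ IsCompact K ∧ r = μ K}

/-- Condition (H) (together with the standing assumptions): `X` is compact Hausdorff,
hereditarily metalindelöf, and no discrete subspace of `X` has measurable cardinality. -/
structure CompactH (X : Type u) [TopologicalSpace X] : Prop where
  t2 : T2Space X
  compact : CompactSpace X
  hml : HereditarilyMetalindelof X
  disc : ∀ D : Set X, DiscreteTopology D → ¬ IsMeasurableCardinal #D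

end Run7.h660
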