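import Mathlib

/-! Combinatorics of admissible subsets of a linear order all of whose initial
segments are countable. -/

open Set

namespace Run7.h660

variable {I : Type} [LinearOrder I]

/-- `T` is admissible for `e` if between any two of its points `a < b` there are at most
`e b a` further points of `T`. -/
def Adm (e : I → I → ℕ) (T : Set I) : Prop :=
  ∀ a ∈ T, ∀ b ∈ T, a < b → (T ∩ Ioo a b).encard ≤ (e b a : ℕ∞)

lemma Adm.mono {e : I → I → ℕ} {S T : Set I} (h : Adm e T) (hST : S ⊆ T) : Adm e S := by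
  intro a ha b hb hab
  exact le_trans (encard_le_encard (inter_subset_inter_left _ hST)) (h a (hST ha) b (hST hb) hab)

lemma Adm.countable {e : I → I → ℕ} {T : Set I} (h : Adm e T)
    (hI : ∀ b : I, (Iic b).Countable) : T.Countable := by
  rcases T.eq_empty_or_nonempty with rfl | ⟨a, ha⟩
  · exact countable_empty
  have h1 : (T ∩ Iic a).Countable := (hI a).mono inter_subset_right
  have h2 : (T ∩ Ioi a).Countable := by
    have hinj : InjOn (fun b => (T ∩ Ioo a b).ncard) (T ∩ Ioi a) := by
      have key : ∀ b ∈ T ∩ Ioi a, ∀ c ∈ T ∩ Ioi a, b < c →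
          (T ∩ Ioo a b).ncard < (T ∩ Ioo a c).ncard := by
        intro b hb c hc hbc
        have hfin : (T ∩ Ioo a c).Finite := by
          have := h a ha c hc.1 hc.2
          exact finite_of_encard_le_coe this
        apply ncard_lt_ncard _ hfin
        refine ⟨fun x hx => ⟨hx.1, hx.2.1, hx.2.2.trans hbc⟩, fun hsub => ?_⟩
        have : b ∈ T ∩ Ioo a b := hsub ⟨hb.1, hb.2, hbc⟩
        exact lt_irrefl _ this.2.2
      intro b hb c hc hbc
      by_contra hne
      rcases lt_or_gt_of_ne hne with hlt | hlt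
      · exact absurd hbc (key b hb c hc hlt).ne
      · exact absurd hbc (key c hc b hb hlt).ne'
    exact countable_of_injective_of_countable_image hinj (to_countable _)
  have : T = (T ∩ Iic a) ∪ (T ∩ Ioi a) := by
    rw [← inter_union_distrib_left, Iic_union_Ioi, inter_univ]
  rw [this]
  exact h1.union h2

lemma exists_subset_of_mono {T : ℕ → Finset I} (hmono : Monotone T) {t : Set I} (htf : t.Finite)
    (hsub : t ⊆ ⋃ n, (↑(T n) : Set I)) : ∃ m, t ⊆ (↑(T m) : Set I) := by
  induction t, htf using Set.Finite.induction_on with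
  | empty => exact ⟨0, empty_subset _⟩
  | @insert a s _ _ ih =>
    obtain ⟨m, hm⟩ := ih (fun x hx => hsub (mem_insert_of_mem _ hx))
    obtain ⟨k, hk⟩ := mem_iUnion.1 (hsub (mem_insert a s))
    refine ⟨max m k, ?_⟩
    rintro x (rfl | hx)
    · exact hmono (le_max_right m k) hk
    · exact hmono (le_max_left m k) (hm hx)

lemma adm_iUnion {e : I → I → ℕ} {T : ℕ → Finset I} (hmono : Monotone T)
    (h : ∀ n, Adm e (↑(T n) : Set I)) : Adm e (⋃ n, (↑(T n) : Set I)) := by
  intro a ha b hb hab
  by_contra hcon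
  rw [not_le] at hcon
  obtain ⟨i, hi⟩ := mem_iUnion.1 ha
  obtain ⟨j, hj⟩ := mem_iUnion.1 hb
  have h1 : ((e b a + 1 : ℕ) : ℕ∞) ≤ ((⋃ n, (↑(T n) : Set I)) ∩ Ioo a b).encard := by
    have := Order.add_one_le_of_lt hcon
    simpa using this
  obtain ⟨t, hts, htc⟩ := exists_subset_encard_eq h1
  have htf : t.Finite := finite_of_encard_eq_coe htc
  obtain ⟨m, hm⟩ := exists_subset_of_mono hmono htf (fun x hx => (hts hx).1)
  set M := max m (max i j) with hM
  have h2 := h M a (hmono ((le_max_left i j).trans (le_max_right m _)) hi) b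
    (hmono ((le_max_right i j).trans (le_max_right m _)) hj) hab
  have h3 : t ⊆ (↑(T M) : Set I) ∩ Ioo a b :=
    fun x hx => ⟨hmono (le_max_left m _) (hm hx), (hts hx).2⟩
  have h4 := (encard_le_encard h3).trans h2
  rw [htc] at h4
  have h5 : (e b a + 1 : ℕ) ≤ e b a := by exact_mod_cast h4
  omega

/-- A system: an uncountable family of pairs of finite sets `(F, G)` with `F` nonempty,
admissible, disjoint from `G`, and the `F`s pairwise disjoint. -/
structure Sys (e : I → I → ℕ) (S : Set (Finset I × Finset I)) : Prop where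
  unc : ¬ S.Countable
  adm : ∀ p ∈ S, Adm e (↑p.1 : Set I)
  ne : ∀ p ∈ S, p.1.Nonempty
  disj : ∀ p ∈ S, Disjoint p.1 p.2
  pw : ∀ p ∈ S, ∀ q ∈ S, p ≠ q → Disjoint p.1 q.1

/-- In a family with pairwise disjoint first components only countably many first components
meet a given countable set. -/
lemma countable_meet {S : Set (Finset I × Finset I)}
    (pw : ∀ p ∈ S, ∀ q ∈ S, p ≠ q → Disjoint p.1 q.1) {Y : Set I} (hY : Y.Countable) :
    {q ∈ S | ((↑q.1 : Set I) ∩ Y).Nonempty}.Countable := by
  have : {q ∈ S | ((↑q.1 : Set I) ∩ Y).Nonempty} ⊆ ⋃ y ∈ Y, {q ∈ S | y ∈ q.1} := by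
    rintro q ⟨hq, y, hy1, hy2⟩
    simp only [mem_iUnion]
    exact ⟨y, hy2, hq, hy1⟩
  refine (hY.biUnion fun y _ => ?_).mono this
  apply Set.Subsingleton.countable
  rintro p ⟨hp, hyp⟩ q ⟨hq, hyq⟩
  by_contra hne
  exact Finset.disjoint_left.1 (pw p hp q hq hne) hyp hyq

/-- The set of candidates of a system above a given stage. -/
def Cand (e : I → I → ℕ) (C : Set I) (S : Set (Finset I × Finset I)) (N : ℕ) (T H : Finset I) :
    Set (Finset I × Finset I) :=
  {q ∈ S | Disjoint (↑q.1 : Set I) C ∧ Disjoint q.1 H ∧ Disjoint q.2 T ∧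
    ∀ a ∈ T, ∀ b ∈ q.1, a < b ∧ N + q.1.card ≤ e b a}

/-- The state invariant. -/
structure Inv (e : I → I → ℕ) (C : Set I) (S : ℕ → Set (Finset I × Finset I))
    (T H : Finset I) : Prop where
  adm : Adm e (↑T : Set I)
  dH : Disjoint T H
  dC : Disjoint (↑T : Set I) C
  unc : ∀ m N, ¬ (Cand e C (S m) N T H).Countable

lemma inv_zero {e : I → I → ℕ} {C : Set I} (hC : C.Countable)
    {S : ℕ → Set (Finset I × Finset I)} (hS : ∀ n, Sys e (S n)) : Inv e C S ∅ ∅ := by
  refine ⟨?_, by simp, by simp, ?_⟩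
  · intro a ha; simp at ha
  · intro m N hc
    apply (hS m).unc
    refine (hc.union (countable_meet (hS m).pw hC)).mono ?_
    intro q hq
    by_cases h : Disjoint (↑q.1 : Set I) C
    · left
      exact ⟨hq, h, by simp, by simp, by simp⟩
    · right
      exact ⟨hq, Set.not_disjoint_iff_nonempty_inter.1 h⟩

lemma step {e : I → I → ℕ} (hI : ∀ b : I, (Iic b).Countable)
    (he : ∀ (b : I) (N : ℕ), {a | a < b ∧ e b a < N}.Finite)
    {C : Set I} {S : ℕ → Set (Finset I × Finset I)}
    (hS : ∀ n, Sys e (S n)) {T H : Finset I} (hinv : Inv e C S T H) (n : ℕ) :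
    ∃ p ∈ S n, Inv e C S (T ∪ p.1) (H ∪ p.2) := by
  classical
  set A := Cand e C (S n) T.card T H with hA
  -- the bad elements for a given pair are finitely many
  have hbad : ∀ m N, {p ∈ A | (Cand e C (S m) N (T ∪ p.1) (H ∪ p.2)).Countable}.Finite := by
    intro m N
    by_contra hinf
    have hinf' : {p ∈ A | (Cand e C (S m) N (T ∪ p.1) (H ∪ p.2)).Countable}.Infinite := hinf
    obtain ⟨f⟩ : Nonempty (ℕ ↪ {p ∈ A | (Cand e C (S m) N (T ∪ p.1) (H ∪ p.2)).Countable}) :=
      ⟨hinf'.natEmbedding⟩
    let p : ℕ → Finset I × Finset I := fun k => (f k).1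
    have hpA : ∀ k, p k ∈ A := fun k => (f k).2.1
    have hpS : ∀ k, p k ∈ S n := fun k => (hpA k).1
    have hpc : ∀ k, (Cand e C (S m) N (T ∪ (p k).1) (H ∪ (p k).2)).Countable := fun k => (f k).2.2
    have hpinj : ∀ k l, k ≠ l → p k ≠ p l := by
      intro k l hkl h
      exact hkl (f.injective (Subtype.ext h))
    -- the countable set of indices used
    set Y : Set I := ⋃ k, ⋃ x ∈ ((p k).1 ∪ (p k).2), Iic x with hY
    have hYc : Y.Countable := by
      refine countable_iUnion fun k => ?_
      exact (Finset.countable_toSet _).biUnion fun x _ => hI x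
    have hD : (⋃ k, Cand e C (S m) N (T ∪ (p k).1) (H ∪ (p k).2)).Countable :=
      countable_iUnion hpc
    have hZ := countable_meet (hS m).pw hYc
    have hex : ∃ q ∈ Cand e C (S m) N T H,
        q ∉ (⋃ k, Cand e C (S m) N (T ∪ (p k).1) (H ∪ (p k).2)) ∪
          {q ∈ S m | ((↑q.1 : Set I) ∩ Y).Nonempty} := by
      by_contra hcon
      push Not at hcon
      exact hinv.unc m N ((hD.union hZ).mono hcon)
    obtain ⟨q, hq, hq'⟩ := hex
    rw [mem_union, not_or] at hq'
    obtain ⟨hq1, hq2⟩ := hq'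
    have hqY : Disjoint (↑q.1 : Set I) Y := by
      rw [Set.disjoint_iff_inter_eq_empty]
      by_contra hne
      exact hq2 ⟨hq.1, Set.nonempty_iff_ne_empty.2 hne⟩
    obtain ⟨hqS, hqC, hqH, hqT, hqe⟩ := hq
    -- the finite set met by all `(p k).1`
    set Z : Set I := (↑q.2 : Set I) ∪ ⋃ b ∈ q.1, {a | a < b ∧ e b a < N + q.1.card} with hZdef
    have hZfin : Z.Finite := by
      refine (Finset.finite_toSet _).union ?_
      exact (Finset.finite_toSet _).biUnion fun b _ => he b _
    have hmeet : ∀ k, ∃ x ∈ (p k).1, x ∈ Z := by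
      intro k
      by_contra hno
      push Not at hno
      apply hq1
      rw [mem_iUnion]
      refine ⟨k, hqS, hqC, ?_, ?_, ?_⟩
      · rw [Finset.disjoint_union_right]
        refine ⟨hqH, ?_⟩
        rw [Finset.disjoint_left]
        intro x hx hx2
        refine Set.disjoint_left.1 hqY hx ?_
        rw [hY, mem_iUnion]
        refine ⟨k, ?_⟩
        simp only [mem_iUnion]
        exact ⟨x, Finset.mem_union_right _ hx2, le_rfl⟩
      · rw [Finset.disjoint_union_right]
        refine ⟨hqT, ?_⟩
        rw [Finset.disjoint_left]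
        intro x hx hx2
        exact hno x hx2 (Or.inl hx)
      · intro a ha b hb
        rcases Finset.mem_union.1 ha with haT | hap
        · exact hqe a haT b hb
        · have hab : a < b := by
            by_contra hle
            rw [not_lt] at hle
            refine Set.disjoint_left.1 hqY hb ?_
            rw [hY, mem_iUnion]
            refine ⟨k, ?_⟩
            simp only [mem_iUnion]
            exact ⟨a, Finset.mem_union_left _ hap, hle⟩
          refine ⟨hab, ?_⟩
          by_contra hlt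
          rw [not_le] at hlt
          apply hno a hap
          right
          simp only [mem_iUnion]
          exact ⟨b, hb, hab, hlt⟩
    choose x hx1 hx2 using hmeet
    have hxinj : Function.Injective x := by
      intro k l hkl
      by_contra hne
      have := (hS n).pw _ (hpS k) _ (hpS l) (hpinj k l hne)
      exact Finset.disjoint_left.1 this (hx1 k) (hkl ▸ hx1 l)
    exact Set.infinite_of_injective_forall_mem hxinj hx2 hZfin
  -- choose a good element
  have hex : ∃ p ∈ A, p ∉ ⋃ mN : ℕ × ℕ,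
      {p ∈ A | (Cand e C (S mN.1) mN.2 (T ∪ p.1) (H ∪ p.2)).Countable} := by
    by_contra hcon
    push Not at hcon
    refine hinv.unc n T.card (Set.Countable.mono hcon ?_)
    exact countable_iUnion fun mN => (hbad mN.1 mN.2).countable
  obtain ⟨p, hpA, hpgood⟩ := hex
  obtain ⟨hpS, hpC, hpH, hpT, hpe⟩ := hpA
  refine ⟨p, hpS, ?_, ?_, ?_, ?_⟩
  · -- admissibility of the union
    intro a ha b hb hab
    have hTp : ∀ a ∈ T, ∀ b ∈ p.1, a < b := fun a ha b hb => (hpe a ha b hb).1
    rw [Finset.coe_union] at ha hb ⊢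
    rcases ha with ha | ha
    · rcases hb with hb | hb
      · have : ((↑T : Set I) ∪ ↑p.1) ∩ Ioo a b ⊆ ↑T ∩ Ioo a b := by
          rintro x ⟨hx | hx, hx2⟩
          · exact ⟨hx, hx2⟩
          · exact absurd (hTp b hb x hx) (not_lt.2 hx2.2.le)
        exact (encard_le_encard this).trans (hinv.adm a ha b hb hab)
      · have h1 := (hpe a ha b hb).2
        calc (((↑T : Set I) ∪ ↑p.1) ∩ Ioo a b).encard
            ≤ ((↑T : Set I) ∪ ↑p.1).encard := encard_le_encard inter_subset_left
          _ ≤ (↑T : Set I).encard + (↑p.1 : Set I).encard := encard_union_le _ _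
          _ = ((T.card + p.1.card : ℕ) : ℕ∞) := by
              rw [encard_coe_eq_coe_finsetCard, encard_coe_eq_coe_finsetCard]; push_cast; rfl
          _ ≤ (e b a : ℕ∞) := by exact_mod_cast h1
    · rcases hb with hb | hb
      · exact absurd (hTp b hb a ha) (not_lt.2 hab.le)
      · have : ((↑T : Set I) ∪ ↑p.1) ∩ Ioo a b ⊆ ↑p.1 ∩ Ioo a b := by
          rintro x ⟨hx | hx, hx2⟩
          · exact absurd (hTp x hx a ha) (not_lt.2 hx2.1.le)
          · exact ⟨hx, hx2⟩
        exact (encard_le_encard this).trans ((hS n).adm p hpS a ha b hb hab)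
  · rw [Finset.disjoint_union_left, Finset.disjoint_union_right, Finset.disjoint_union_right]
    exact ⟨⟨hinv.dH, hpT.symm⟩, hpH, (hS n).disj p hpS⟩
  · rw [Finset.coe_union, Set.disjoint_union_left]
    exact ⟨hinv.dC, hpC⟩
  · intro m N hc
    apply hpgood
    rw [mem_iUnion]
    exact ⟨(m, N), ⟨hpS, hpC, hpH, hpT, hpe⟩, hc⟩

/-- **Main combinatorial lemma**: an admissible set avoiding a given countable set and
realising a member of each of countably many systems. -/
theorem exists_adm {e : I → I → ℕ} (hI : ∀ b : I, (Iic b).Countable)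
    (he : ∀ (b : I) (N : ℕ), {a | a < b ∧ e b a < N}.Finite)
    {C : Set I} (hC : C.Countable) {S : ℕ → Set (Finset I × Finset I)}
    (hS : ∀ n, Sys e (S n)) :
    ∃ T : Set I, Adm e T ∧ Disjoint T C ∧
      ∀ n, ∃ p ∈ S n, (↑p.1 : Set I) ⊆ T ∧ Disjoint T (↑p.2 : Set I) := by
  classical
  let St := {TH : Finset I × Finset I // Inv e C S TH.1 TH.2}
  choose g hg using fun (s : St) (n : ℕ) => step hI he hS s.2 n
  let s : ℕ → St := fun n => Nat.rec ⟨(∅, ∅), inv_zero hC hS⟩
    (fun n s => ⟨(s.1.1 ∪ (g s n).1, s.1.2 ∪ (g s n).2), (hg s n).2⟩) n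
  have hs1 : ∀ n, (s (n+1)).1.1 = (s n).1.1 ∪ (g (s n) n).1 := fun n => rfl
  have hs2 : ∀ n, (s (n+1)).1.2 = (s n).1.2 ∪ (g (s n) n).2 := fun n => rfl
  have mono1 : Monotone (fun n => (s n).1.1) := by
    apply monotone_nat_of_le_succ
    intro n
    rw [hs1]
    exact Finset.subset_union_left
  have mono2 : Monotone (fun n => (s n).1.2) := by
    apply monotone_nat_of_le_succ
    intro n
    rw [hs2]
    exact Finset.subset_union_left
  refine ⟨⋃ n, (↑(s n).1.1 : Set I), adm_iUnion mono1 fun n => (s n).2.adm, ?_, ?_⟩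
  · rw [Set.disjoint_iUnion_left]
    exact fun n => (s n).2.dC
  · intro n
    refine ⟨g (s n) n, (hg (s n) n).1, ?_, ?_⟩
    · refine Set.Subset.trans ?_ (subset_iUnion _ (n+1))
      rw [hs1, Finset.coe_union]
      exact subset_union_right
    · rw [Set.disjoint_iUnion_left]
      intro m
      rw [Finset.disjoint_coe]
      have h1 := (s (max m (n+1))).2.dH
      refine Finset.disjoint_of_subset_left (mono1 (le_max_left m (n+1))) ?_
      refine Finset.disjoint_of_subset_right ?_ h1
      refine Finset.Subset.trans ?_ (mono2 (le_max_right m (n+1)))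
      show (g (s n) n).2 ⊆ (s (n+1)).1.2
      rw [hs2]
      exact Finset.subset_union_right

end Run7.h660
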