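import Mathlib
import Pool.Agent.Run7.h660.Comb
import Pool.Agent.Run7.h660.Defs

/-! The compact space of admissible sets. -/

open Set Filter

namespace Run7.h660

variable {I : Type} [LinearOrder I]

/-- support -/
def supp (x : I → Bool) : Set I := {i | x i = true}

omit [LinearOrder I] in
lemma mem_supp (x : I → Bool) (i : I) : i ∈ supp x ↔ x i = true := Iff.rfl

lemma adm_iff {e : I → I → ℕ} {T : Set I} : Adm e T ↔
    ∀ a b : I, a < b → ∀ t : Finset I, t.card = e b a + 1 → (∀ i ∈ t, i ∈ Ioo a b) →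
      ¬ (a ∈ T ∧ b ∈ T ∧ ∀ i ∈ t, i ∈ T) := by
  constructor
  · rintro h a b hab t ht hti ⟨ha, hb, htT⟩
    have h1 := h a ha b hb hab
    have h2 : (↑t : Set I) ⊆ T ∩ Ioo a b := fun i hi => ⟨htT i hi, hti i hi⟩
    have h3 := (encard_le_encard h2).trans h1
    rw [encard_coe_eq_coe_finsetCard, ht] at h3
    have h4 : e b a + 1 ≤ e b a := by exact_mod_cast h3
    omega
  · intro h a ha b hb hab
    by_contra hcon
    rw [not_le] at hcon
    have h1 : ((e b a + 1 : ℕ) : ℕ∞) ≤ (T ∩ Ioo a b).encard := by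
      have := Order.add_one_le_of_lt hcon
      simpa using this
    obtain ⟨t, hts, htc⟩ := exists_subset_encard_eq h1
    have htf : t.Finite := finite_of_encard_eq_coe htc
    refine h a b hab htf.toFinset ?_ ?_ ⟨ha, hb, ?_⟩
    · have : ((htf.toFinset.card : ℕ) : ℕ∞) = ((e b a + 1 : ℕ) : ℕ∞) := by
        rw [← encard_coe_eq_coe_finsetCard, Finite.coe_toFinset]; exact htc
      exact_mod_cast this
    · intro i hi
      exact (hts ((Finite.mem_toFinset htf).1 hi)).2
    · intro i hi
      exact (hts ((Finite.mem_toFinset htf).1 hi)).1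

lemma isClosed_adm (e : I → I → ℕ) : IsClosed {x : I → Bool | Adm e (supp x)} := by
  have : {x : I → Bool | Adm e (supp x)} = ⋂ (a : I) (b : I) (_ : a < b) (t : Finset I)
      (_ : t.card = e b a + 1) (_ : ∀ i ∈ t, i ∈ Ioo a b),
      {x : I → Bool | ¬ (a ∈ supp x ∧ b ∈ supp x ∧ ∀ i ∈ t, i ∈ supp x)} := by
    ext x
    simp only [mem_iInter, mem_ofPred_eq]
    exact adm_iff
  rw [this]
  refine isClosed_iInter fun a => isClosed_iInter fun b => isClosed_iInter fun _ =>
    isClosed_iInter fun t => isClosed_iInter fun _ => isClosed_iInter fun _ => ?_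
  have hop : ∀ i : I, IsOpen {x : I → Bool | i ∈ supp x} := by
    intro i
    have h : {x : I → Bool | i ∈ supp x} = (fun x : I → Bool => x i) ⁻¹' {true} := by
      ext x; rfl
    rw [h]
    exact (isOpen_discrete _).preimage (continuous_apply i)
  have h1 : IsOpen {x : I → Bool | a ∈ supp x ∧ b ∈ supp x ∧ ∀ i ∈ t, i ∈ supp x} := by
    refine (hop a).inter ((hop b).inter ?_)
    have : {x : I → Bool | ∀ i ∈ t, i ∈ supp x} = ⋂ i ∈ t, {x : I → Bool | i ∈ supp x} := by
      ext x; simp
    show IsOpen {x : I → Bool | ∀ i ∈ t, i ∈ supp x}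
    rw [this]
    exact isOpen_biInter_finset fun i _ => hop i
  have h2 : {x : I → Bool | ¬ (a ∈ supp x ∧ b ∈ supp x ∧ ∀ i ∈ t, i ∈ supp x)}ᶜ =
      {x : I → Bool | a ∈ supp x ∧ b ∈ supp x ∧ ∀ i ∈ t, i ∈ supp x} := by
    ext x
    simp only [mem_compl_iff, mem_ofPred_eq, not_not]
  exact ⟨h2 ▸ h1⟩

/-- The space of admissible sets. -/
abbrev Sp (e : I → I → ℕ) : Type := {x : I → Bool // Adm e (supp x)}

instance (e : I → I → ℕ) : CompactSpace (Sp e) :=
  isCompact_iff_compactSpace.1 (isClosed_adm e).isCompact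

/-- The clopen set of points whose support contains `F` and misses `G`. -/
def Cyl (e : I → I → ℕ) (F G : Finset I) : Set (Sp e) :=
  {x | (↑F : Set I) ⊆ supp x.1 ∧ Disjoint (supp x.1) (↑G : Set I)}

lemma isClopen_coord (e : I → I → ℕ) (i : I) : IsClopen {x : Sp e | i ∈ supp x.1} := by
  have hc : Continuous (fun x : Sp e => x.1 i) := (continuous_apply i).comp continuous_subtype_val
  exact (isClopen_discrete {true}).preimage hc

lemma isClopen_cyl (e : I → I → ℕ) (F G : Finset I) : IsClopen (Cyl e F G) := by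
  have : Cyl e F G = (⋂ i ∈ F, {x : Sp e | i ∈ supp x.1}) ∩ ⋂ i ∈ G, {x : Sp e | i ∈ supp x.1}ᶜ := by
    ext x
    simp only [Cyl, mem_ofPred_eq, mem_inter_iff, mem_iInter, mem_compl_iff]
    refine and_congr Iff.rfl ?_
    rw [Set.disjoint_right]
    rfl
  rw [this]
  exact (isClopen_biInter_finset fun i _ => isClopen_coord e i).inter
    (isClopen_biInter_finset fun i _ => (isClopen_coord e i).compl)

/-- Basic neighbourhoods. -/
lemma exists_cyl {e : I → I → ℕ} {W : Set (Sp e)} (hW : IsOpen W) {x : Sp e} (hx : x ∈ W) :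
    ∃ F G : Finset I, Disjoint F G ∧ x ∈ Cyl e F G ∧ Cyl e F G ⊆ W := by
  classical
  obtain ⟨V, hV, rfl⟩ := isOpen_induced_iff.1 hW
  obtain ⟨A, u, hu, hA⟩ := isOpen_pi_iff.1 hV x.1 hx
  refine ⟨A.filter (fun i => x.1 i = true), A.filter (fun i => x.1 i = false), ?_, ?_, ?_⟩
  · rw [Finset.disjoint_filter]
    intro i _ h1 h2
    rw [h1] at h2
    exact absurd h2 (by decide)
  · constructor
    · intro i hi
      exact (Finset.mem_filter.1 hi).2
    · rw [Set.disjoint_right]
      intro i hi hi2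
      have := (Finset.mem_filter.1 hi).2
      rw [mem_supp, this] at hi2
      exact absurd hi2 (by decide)
  · rintro y ⟨hy1, hy2⟩
    apply hA
    intro i hi
    have hxy : y.1 i = x.1 i := by
      cases hxi : x.1 i with
      | true => exact hy1 (Finset.mem_filter.2 ⟨hi, hxi⟩)
      | false =>
        rw [Set.disjoint_right] at hy2
        have : i ∉ supp y.1 := hy2 (Finset.mem_filter.2 ⟨hi, hxi⟩)
        rw [mem_supp] at this
        simpa using this
    rw [hxy]
    exact (hu i hi).2

/-- The point with given admissible support. -/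
noncomputable def pt {e : I → I → ℕ} (T : Set I) (hT : Adm e T) : Sp e := by
  classical
  exact ⟨fun i => decide (i ∈ T), by
    have : supp (fun i => decide (i ∈ T)) = T := by ext i; simp [supp]
    rw [this]; exact hT⟩

lemma supp_pt {e : I → I → ℕ} (T : Set I) (hT : Adm e T) : supp (pt T hT).1 = T := by
  ext i; simp [supp, pt]

/-- The union of the cylinders of a family. -/
def LL (e : I → I → ℕ) (S : Set (Finset I × Finset I)) : Set (Sp e) :=
  {x | ∃ p ∈ S, x ∈ Cyl e p.1 p.2}

/-- Generators of the filter. -/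
def gens (e : I → I → ℕ) : Set (Set (Sp e)) :=
  {E | (∃ i, E = {x : Sp e | i ∈ supp x.1}ᶜ) ∨ ∃ S, Sys e S ∧ E = LL e S}

/-- The countably complete filter. -/
def FF (e : I → I → ℕ) : Filter (Sp e) := countableGenerate (gens e)

instance (e : I → I → ℕ) : CountableInterFilter (FF e) := by
  unfold FF; infer_instance

/-- The system of all singletons. -/
def S0 (I : Type) : Set (Finset I × Finset I) := {p | ∃ i : I, p = ({i}, ∅)}

lemma sys_S0 {e : I → I → ℕ} (hunc : ¬ (univ : Set I).Countable) : Sys e (S0 I) := by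
  refine ⟨?_, ?_, ?_, ?_, ?_⟩
  · intro hc
    apply hunc
    have : MapsTo (fun i : I => (({i}, ∅) : Finset I × Finset I)) univ (S0 I) := fun i _ => ⟨i, rfl⟩
    refine MapsTo.countable_of_injOn this ?_ hc
    intro i _ j _ hij
    simpa using congrArg Prod.fst hij
  · rintro p ⟨i, rfl⟩ a ha b hb hab
    simp only [Finset.coe_singleton, mem_singleton_iff] at ha hb
    subst ha; subst hb
    exact absurd hab (lt_irrefl _)
  · rintro p ⟨i, rfl⟩; simp
  · rintro p ⟨i, rfl⟩; simp
  · rintro p ⟨i, rfl⟩ q ⟨j, rfl⟩ hne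
    simp only [Finset.disjoint_singleton]
    rintro rfl
    exact hne rfl

theorem neBot {e : I → I → ℕ} (hI : ∀ b : I, (Iic b).Countable)
    (hunc : ¬ (univ : Set I).Countable)
    (he : ∀ (b : I) (N : ℕ), {a | a < b ∧ e b a < N}.Finite) : NeBot (FF e) := by
  rw [neBot_iff]
  intro hbot
  have h0 : (∅ : Set (Sp e)) ∈ FF e := by rw [hbot]; exact mem_bot
  obtain ⟨𝒮, hsub, hcount, hint⟩ := mem_countableGenerate_iff.1 h0
  set 𝒮' : Set (Set (Sp e)) := insert (LL e (S0 I)) 𝒮 with h𝒮'
  have hc' : 𝒮'.Countable := hcount.insert _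
  obtain ⟨f, hf⟩ := hc'.exists_eq_range (insert_nonempty _ _)
  have key : ∀ n, ∃ (C : Set I) (S : Set (Finset I × Finset I)), C.Countable ∧ Sys e S ∧
      ∀ x : Sp e, Disjoint (supp x.1) C → x ∈ LL e S → x ∈ f n := by
    intro n
    have hn : f n ∈ 𝒮' := by rw [hf]; exact mem_range_self n
    have hg : f n ∈ gens e := by
      rcases hn with hn | hn
      · rw [hn]; exact Or.inr ⟨_, sys_S0 hunc, rfl⟩
      · exact hsub hn
    rcases hg with ⟨i, hi⟩ | ⟨S, hS, hE⟩
    · refine ⟨{i}, S0 I, countable_singleton i, sys_S0 hunc, ?_⟩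
      intro x hx _
      rw [hi]
      intro hxi
      exact Set.disjoint_left.1 hx hxi rfl
    · refine ⟨∅, S, countable_empty, hS, ?_⟩
      intro x _ hx
      rw [hE]; exact hx
  choose C S hC hS hx using key
  obtain ⟨T, hT, hTC, hTS⟩ := exists_adm hI he (countable_iUnion hC) hS
  have hmem : pt T hT ∈ ⋂₀ 𝒮 := by
    intro E hE
    have : E ∈ range f := by rw [← hf]; exact mem_insert_of_mem _ hE
    obtain ⟨n, rfl⟩ := this
    apply hx n
    · rw [supp_pt]
      exact hTC.mono_right (subset_iUnion C n)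
    · obtain ⟨p, hp, hp1, hp2⟩ := hTS n
      refine ⟨p, hp, ?_, ?_⟩
      · rw [supp_pt]; exact hp1
      · rw [supp_pt]; exact hp2
  exact hint hmem

/-- Points missing a countable set of coordinates. -/
lemma miss_mem (e : I → I → ℕ) {C : Set I} (hC : C.Countable) :
    {x : Sp e | Disjoint (supp x.1) C} ∈ FF e := by
  have : {x : Sp e | Disjoint (supp x.1) C} = ⋂ i ∈ C, {x : Sp e | i ∈ supp x.1}ᶜ := by
    ext x
    simp only [mem_ofPred_eq, mem_iInter, mem_compl_iff]
    exact Set.disjoint_right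
  rw [this]
  rw [countable_bInter_mem hC]
  intro i _
  exact CountableGenerateSets.basic (Or.inl ⟨i, rfl⟩)

/-- Every open set or its complement is in the filter. -/
theorem open_decided (e : I → I → ℕ) {W : Set (Sp e)} (hW : IsOpen W) :
    W ∈ FF e ∨ Wᶜ ∈ FF e := by
  classical
  by_cases hp : ∃ G : Finset I, Cyl e ∅ G ⊆ W
  · left
    obtain ⟨G, hG⟩ := hp
    refine mem_of_superset (miss_mem e (C := (↑G : Set I)) (Finset.countable_toSet _)) ?_
    intro x hx
    apply hG
    exact ⟨by simp, hx⟩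
  · push Not at hp
    -- the family of basic subsets
    set 𝒥 : Set (Finset I × Finset I) :=
      {p | Adm e (↑p.1 : Set I) ∧ Disjoint p.1 p.2 ∧ Cyl e p.1 p.2 ⊆ W} with h𝒥
    have hne : ∀ p ∈ 𝒥, p.1.Nonempty := by
      rintro ⟨F, G⟩ ⟨_, _, hsub⟩
      rw [Finset.nonempty_iff_ne_empty]
      rintro rfl
      exact hp G hsub
    -- a maximal disjoint subfamily
    obtain ⟨S, hSmax⟩ := zorn_subset
      {S : Set (Finset I × Finset I) | S ⊆ 𝒥 ∧ ∀ p ∈ S, ∀ q ∈ S, p ≠ q → Disjoint p.1 q.1} (by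
        intro c hc hchain
        refine ⟨⋃₀ c, ⟨?_, ?_⟩, fun s hs => subset_sUnion_of_mem hs⟩
        · exact sUnion_subset fun s hs => (hc hs).1
        · rintro p ⟨s, hs, hps⟩ q ⟨t, ht, hqt⟩ hpq
          rcases hchain.total hs ht with hst | hst
          · exact (hc ht).2 p (hst hps) q hqt hpq
          · exact (hc hs).2 p hps q (hst hqt) hpq)
    obtain ⟨hSJ, hSpw⟩ := hSmax.prop
    by_cases hSc : S.Countable
    · right
      set C : Set I := ⋃ p ∈ S, (↑p.1 : Set I) with hC
      have hCc : C.Countable := hSc.biUnion fun p _ => Finset.countable_toSet _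
      refine mem_of_superset (miss_mem e hCc) ?_
      intro x hx hxW
      obtain ⟨F, G, hFG, hxc, hcyl⟩ := exists_cyl hW hxW
      have hFJ : (F, G) ∈ 𝒥 := ⟨x.2.mono hxc.1, hFG, hcyl⟩
      have hFne := hne _ hFJ
      have hFC : Disjoint (↑F : Set I) C := hx.mono_left hxc.1
      have hins : insert (F, G) S ∈ {S : Set (Finset I × Finset I) | S ⊆ 𝒥 ∧
          ∀ p ∈ S, ∀ q ∈ S, p ≠ q → Disjoint p.1 q.1} := by
        refine ⟨insert_subset hFJ hSJ, ?_⟩
        have hd : ∀ p ∈ S, Disjoint F p.1 := by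
          intro p hp
          rw [← Finset.disjoint_coe]
          refine hFC.mono_right ?_
          exact subset_biUnion_of_mem (u := fun p : Finset I × Finset I => (↑p.1 : Set I)) hp
        rintro p (rfl | hp) q (rfl | hq) hpq
        · exact absurd rfl hpq
        · exact hd q hq
        · exact (hd p hp).symm
        · exact hSpw p hp q hq hpq
      have hmem : (F, G) ∈ S := hSmax.le_of_ge hins (subset_insert _ _) (mem_insert _ _)
      obtain ⟨i, hi⟩ := hFne
      refine Set.disjoint_left.1 hFC (Finset.mem_coe.2 hi) ?_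
      rw [hC]
      simp only [mem_iUnion]
      exact ⟨(F, G), hmem, hi⟩
    · left
      have hsys : Sys e S := by
        refine ⟨hSc, fun p hp => (hSJ hp).1, fun p hp => hne p (hSJ hp),
          fun p hp => (hSJ hp).2.1, hSpw⟩
      have : LL e S ∈ FF e := CountableGenerateSets.basic (Or.inr ⟨S, hsys, rfl⟩)
      refine mem_of_superset this ?_
      rintro x ⟨p, hp, hxp⟩
      exact (hSJ hp).2.2 hxp

end Run7.h660
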