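import Mathlib
import Pool.Agent.Run7.h660.Space

/-! Hereditary metalindelöfness of the space of admissible sets, and its cardinality. -/

open Set Filter Cardinal

namespace Run7.h660

lemma countable_meet' {ι I : Type} {S : Set ι} (f : ι → Finset I)
    (pw : ∀ p ∈ S, ∀ q ∈ S, p ≠ q → Disjoint (f p) (f q)) {Y : Set I} (hY : Y.Countable) :
    {q | q ∈ S ∧ ((↑(f q) : Set I) ∩ Y).Nonempty}.Countable := by
  have : {q | q ∈ S ∧ ((↑(f q) : Set I) ∩ Y).Nonempty} ⊆ ⋃ y ∈ Y, {q | q ∈ S ∧ y ∈ f q} := by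
    rintro q ⟨hq, y, hy1, hy2⟩
    simp only [mem_iUnion]
    exact ⟨y, hy2, hq, hy1⟩
  refine (hY.biUnion fun y _ => ?_).mono this
  apply Set.Subsingleton.countable
  rintro p ⟨hp, hyp⟩ q ⟨hq, hyq⟩
  by_contra hne
  exact Finset.disjoint_left.1 (pw p hp q hq hne) hyp hyq

lemma exists_max_disj {ι I : Type} (𝒮 : Set ι) (f : ι → Finset I) (hf : ∀ p ∈ 𝒮, (f p).Nonempty) :
    ∃ S ⊆ 𝒮, (∀ p ∈ S, ∀ q ∈ S, p ≠ q → Disjoint (f p) (f q)) ∧
      ∀ p ∈ 𝒮, ∃ q ∈ S, ¬ Disjoint (f p) (f q) := by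
  obtain ⟨S, hSmax⟩ := zorn_subset
      {S : Set ι | S ⊆ 𝒮 ∧ ∀ p ∈ S, ∀ q ∈ S, p ≠ q → Disjoint (f p) (f q)} (by
        intro c hc hchain
        refine ⟨⋃₀ c, ⟨?_, ?_⟩, fun s hs => subset_sUnion_of_mem hs⟩
        · exact sUnion_subset fun s hs => (hc hs).1
        · rintro p ⟨s, hs, hps⟩ q ⟨t, ht, hqt⟩ hpq
          rcases hchain.total hs ht with hst | hst
          · exact (hc ht).2 p (hst hps) q hqt hpq
          · exact (hc hs).2 p hps q (hst hqt) hpq)
  obtain ⟨hS1, hS2⟩ := hSmax.prop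
  refine ⟨S, hS1, hS2, ?_⟩
  intro p hp
  by_contra hno
  push Not at hno
  have hins : insert p S ∈ {S : Set ι | S ⊆ 𝒮 ∧ ∀ p ∈ S, ∀ q ∈ S, p ≠ q →
      Disjoint (f p) (f q)} := by
    refine ⟨insert_subset hp hS1, ?_⟩
    rintro a (rfl | ha) b (rfl | hb) hab
    · exact absurd rfl hab
    · exact hno b hb
    · exact (hno a ha).symm
    · exact hS2 a ha b hb hab
  have hmem : p ∈ S := hSmax.le_of_ge hins (subset_insert _ _) (mem_insert _ _)
  have h1 := hno p hmem
  rw [Finset.disjoint_self_iff_empty] at h1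
  exact (hf p hp).ne_empty h1

variable {I : Type} [LinearOrder I]

/-- Minimal `G` with `Cyl e F G ⊆ W`. -/
def Mn (e : I → I → ℕ) (W : Set (Sp e)) (F : Finset I) : Set (Finset I) :=
  {G | Minimal (fun G : Finset I => Cyl e F G ⊆ W) G}

lemma mn_countable_aux {e : I → I → ℕ} (hI : ∀ b : I, (Iic b).Countable) (W : Set (Sp e))
    (F : Finset I) (n : ℕ) : ∀ R : Finset I,
      {G | G ∈ Mn e W F ∧ R ⊆ G ∧ (G \ R).card = n}.Countable := by
  classical
  induction n with
  | zero =>
    intro R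
    apply Set.Subsingleton.countable
    rintro G ⟨_, hRG, hc⟩ G' ⟨_, hRG', hc'⟩
    have h1 : G = R := by
      apply Finset.Subset.antisymm _ hRG
      rw [Finset.card_eq_zero, Finset.sdiff_eq_empty_iff_subset] at hc
      exact hc
    have h2 : G' = R := by
      apply Finset.Subset.antisymm _ hRG'
      rw [Finset.card_eq_zero, Finset.sdiff_eq_empty_iff_subset] at hc'
      exact hc'
    rw [h1, h2]
  | succ n ih =>
    intro R
    set 𝒮 := {G | G ∈ Mn e W F ∧ R ⊆ G ∧ (G \ R).card = n + 1} with h𝒮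
    have hne : ∀ G ∈ 𝒮, (G \ R).Nonempty := by
      rintro G ⟨_, _, hc⟩
      rw [← Finset.card_pos, hc]
      exact Nat.succ_pos n
    obtain ⟨S, hS1, hS2, hS3⟩ := exists_max_disj 𝒮 (fun G => G \ R) hne
    by_cases hSc : S.Countable
    · have hC : (⋃ G ∈ S, (↑(G \ R) : Set I)).Countable :=
        hSc.biUnion fun G _ => Finset.countable_toSet _
      refine (hC.biUnion fun c _ => ih (insert c R)).mono ?_
      intro G hG
      obtain ⟨G', hG', hnd⟩ := hS3 G hG
      rw [Finset.not_disjoint_iff] at hnd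
      obtain ⟨c, hc1, hc2⟩ := hnd
      simp only [mem_iUnion]
      refine ⟨c, ⟨G', hG', hc2⟩, hG.1, ?_, ?_⟩
      · exact Finset.insert_subset (Finset.mem_sdiff.1 hc1).1 hG.2.1
      · have : G \ insert c R = (G \ R).erase c := by
          ext x
          simp only [Finset.mem_sdiff, Finset.mem_insert, Finset.mem_erase]
          tauto
        rw [this, Finset.card_erase_of_mem hc1, hG.2.2]
        rfl
    · exfalso
      have hR : Cyl e F R ⊆ W := by
        intro x hx
        have hsc : (supp x.1).Countable := x.2.countable hI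
        have hmc : {q | q ∈ S ∧ ((↑(q \ R) : Set I) ∩ supp x.1).Nonempty}.Countable :=
          countable_meet' (fun G : Finset I => G \ R) hS2 hsc
        have hex : ∃ G ∈ S, ¬ ((↑(G \ R) : Set I) ∩ supp x.1).Nonempty := by
          by_contra hcon
          push Not at hcon
          refine hSc (hmc.mono ?_)
          intro G hG
          exact ⟨hG, hcon G hG⟩
        obtain ⟨G, hG, hGx⟩ := hex
        have hGm : Minimal (fun G : Finset I => Cyl e F G ⊆ W) G := (hS1 hG).1
        have : Cyl e F G ⊆ W := hGm.prop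
        apply this
        refine ⟨hx.1, ?_⟩
        rw [Set.disjoint_right]
        intro i hi hix
        by_cases hiR : i ∈ R
        · exact Set.disjoint_right.1 hx.2 (Finset.mem_coe.2 hiR) hix
        · exact hGx ⟨i, by
            rw [Finset.coe_sdiff]
            exact ⟨hi, fun h => hiR h⟩, hix⟩
      have hSne : S.Nonempty := by
        by_contra h
        rw [Set.not_nonempty_iff_eq_empty] at h
        exact hSc (h ▸ countable_empty)
      obtain ⟨G, hG⟩ := hSne
      have hGm : Minimal (fun G : Finset I => Cyl e F G ⊆ W) G := (hS1 hG).1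
      have hle := hGm.le_of_le hR (hS1 hG).2.1
      have := hne G (hS1 hG)
      rw [Finset.sdiff_nonempty] at this
      exact this hle

lemma mn_countable {e : I → I → ℕ} (hI : ∀ b : I, (Iic b).Countable) (W : Set (Sp e))
    (F : Finset I) : (Mn e W F).Countable := by
  classical
  refine (countable_iUnion fun n => mn_countable_aux hI W F n ∅).mono ?_
  intro G hG
  rw [mem_iUnion]
  exact ⟨(G \ ∅).card, hG, Finset.empty_subset _, rfl⟩

lemma exists_mn {e : I → I → ℕ} {W : Set (Sp e)} (hW : IsOpen W) {x : Sp e} (hx : x ∈ W) :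
    ∃ F : Finset I, ∃ G ∈ Mn e W F, x ∈ Cyl e F G := by
  obtain ⟨F, G, _, hxc, hcyl⟩ := exists_cyl hW hx
  obtain ⟨G', hG', hmin⟩ := exists_minimal_le_of_wellFoundedLT
    (fun G : Finset I => Cyl e F G ⊆ W) G hcyl
  refine ⟨F, G', hmin, hxc.1, ?_⟩
  exact hxc.2.mono_right (Finset.coe_subset.2 hG')

lemma countable_finsets {T : Set I} (hT : T.Countable) : {F : Finset I | (↑F : Set I) ⊆ T}.Countable := by
  have h1 := countable_ofPred_finite_subset hT
  refine MapsTo.countable_of_injOn (f := fun F : Finset I => (↑F : Set I)) ?_ ?_ h1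
  · intro F hF
    exact ⟨F.finite_toSet, hF⟩
  · intro F _ G _ h
    exact Finset.coe_injective h

theorem hereditarilyMetalindelof {e : I → I → ℕ} (hI : ∀ b : I, (Iic b).Countable) :
    HereditarilyMetalindelof (Sp e) := by
  classical
  intro Y 𝒰 hop hcov
  have h1 : ∀ U : 𝒰, ∃ U' : Set (Sp e), IsOpen U' ∧ Subtype.val ⁻¹' U' = U.1 := by
    intro U
    obtain ⟨U', hU', h⟩ := isOpen_induced_iff.1 (hop U.1 U.2)
    exact ⟨U', hU', h⟩
  choose E hE1 hE2 using h1
  set W : Set (Sp e) := ⋃ U : 𝒰, E U with hW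
  have hWo : IsOpen W := isOpen_iUnion hE1
  have h2 : ∀ p : {p : Finset I × Finset I // p.2 ∈ Mn e W p.1}, ∃ t : Finset 𝒰,
      Cyl e p.1.1 p.1.2 ⊆ ⋃ U ∈ t, E U := by
    intro p
    have hc : IsCompact (Cyl e p.1.1 p.1.2) := (isClopen_cyl e _ _).1.isCompact
    have hmin : Minimal (fun G : Finset I => Cyl e p.1.1 G ⊆ W) p.1.2 := p.2
    have hsub : Cyl e p.1.1 p.1.2 ⊆ W := hmin.prop
    exact hc.elim_finite_subcover E hE1 hsub
  choose t ht using h2
  let V : (Σ p : {p : Finset I × Finset I // p.2 ∈ Mn e W p.1}, t p) → Set Y :=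
    fun q => Subtype.val ⁻¹' (Cyl e q.1.1.1 q.1.1.2 ∩ E q.2.1)
  refine ⟨range V, ?_, ?_, ?_, ?_⟩
  · rintro _ ⟨q, rfl⟩
    exact ((isClopen_cyl e _ _).isOpen.inter (hE1 _)).preimage continuous_subtype_val
  · rw [eq_univ_iff_forall]
    intro y
    have hyW : y.1 ∈ W := by
      have : y ∈ ⋃₀ 𝒰 := by rw [hcov]; trivial
      obtain ⟨U, hU, hy⟩ := this
      rw [hW, mem_iUnion]
      refine ⟨⟨U, hU⟩, ?_⟩
      have : y ∈ Subtype.val ⁻¹' (E ⟨U, hU⟩) := by rw [hE2]; exact hy
      exact this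
    obtain ⟨F, G, hG, hyc⟩ := exists_mn hWo hyW
    have := ht ⟨(F, G), hG⟩ hyc
    simp only [mem_iUnion] at this
    obtain ⟨U, hUt, hyU⟩ := this
    exact ⟨V ⟨⟨(F, G), hG⟩, ⟨U, hUt⟩⟩, mem_range_self _, hyc, hyU⟩
  · rintro _ ⟨q, rfl⟩
    refine ⟨q.2.1.1, q.2.1.2, ?_⟩
    rintro y ⟨_, hy⟩
    rw [← hE2]
    exact hy
  · intro y
    have hyc : (supp y.1.1).Countable := y.1.2.countable hI
    have hF := countable_finsets hyc
    have hQ : {q : (Σ p : {p : Finset I × Finset I // p.2 ∈ Mn e W p.1}, t p) |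
        (↑q.1.1.1 : Set I) ⊆ supp y.1.1}.Countable := by
      have hP : {p : {p : Finset I × Finset I // p.2 ∈ Mn e W p.1} |
          (↑p.1.1 : Set I) ⊆ supp y.1.1}.Countable := by
        have hP' : (⋃ F ∈ {F : Finset I | (↑F : Set I) ⊆ supp y.1.1},
            (fun G => (F, G)) '' Mn e W F).Countable :=
          hF.biUnion fun F _ => (mn_countable hI W F).image _
        refine MapsTo.countable_of_injOn (f := fun p => p.1) ?_ Subtype.val_injective.injOn hP'
        intro p hp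
        simp only [mem_iUnion]
        exact ⟨p.1.1, hp, p.1.2, p.2, rfl⟩
      refine (hP.biUnion fun p _ => countable_range (fun u : t p =>
        (⟨p, u⟩ : Σ p : {p : Finset I × Finset I // p.2 ∈ Mn e W p.1}, t p))).mono ?_
      rintro ⟨p, u⟩ hq
      simp only [mem_iUnion]
      exact ⟨p, hq, u, rfl⟩
    refine (hQ.image V).mono ?_
    rintro _ ⟨⟨q, rfl⟩, hy⟩
    exact ⟨q, hy.1.1, rfl⟩

theorem mk_sp_le {e : I → I → ℕ} (hI : ∀ b : I, (Iic b).Countable) (hc : #I ≤ 𝔠) :
    #(Sp e) ≤ 𝔠 := by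
  classical
  have h1 : ∀ x : Sp e, ∃ f : ℕ → Option I, ∀ i, i ∈ supp x.1 ↔ ∃ n, f n = some i := by
    intro x
    have hsc : (supp x.1).Countable := x.2.countable hI
    rcases (supp x.1).eq_empty_or_nonempty with h | h
    · refine ⟨fun _ => none, ?_⟩
      intro i
      rw [h]; simp
    · obtain ⟨f, hf⟩ := hsc.exists_eq_range h
      refine ⟨fun n => some (f n), ?_⟩
      intro i
      rw [hf]
      simp [eq_comm]
  choose f hf using h1
  have hinj : Function.Injective f := by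
    intro x y hxy
    apply Subtype.ext
    funext i
    have : i ∈ supp x.1 ↔ i ∈ supp y.1 := by rw [hf, hf, hxy]
    rw [mem_supp, mem_supp] at this
    exact Bool.eq_iff_iff.2 this
  calc #(Sp e) ≤ #(ℕ → Option I) := mk_le_of_injective hinj
    _ = #(Option I) ^ ℵ₀ := by simp
    _ ≤ 𝔠 ^ ℵ₀ := by
        apply power_le_power_right
        rw [mk_option]
        calc #I + 1 ≤ 𝔠 + 1 := by gcongr
          _ = 𝔠 := by
            rw [add_one_eq]; exact aleph0_le_continuum
    _ = 𝔠 := continuum_power_aleph0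

theorem not_measurable_of_le {κ : Cardinal.{0}} (h : κ ≤ 𝔠) : ¬ IsMeasurableCardinal κ := by
  classical
  rintro ⟨hκ, U, hU1, hU2⟩
  have h1 : #κ.out ≤ #(ℕ → Bool) := by
    rw [mk_out]
    refine h.trans (le_of_eq ?_)
    simp
  obtain ⟨j, hj⟩ := h1
  have h2 : ∀ n : ℕ, ∃ b : Bool, {x | j x n = b} ∈ U := by
    intro n
    rcases U.mem_or_compl_mem {x | j x n = true} with h | h
    · exact ⟨true, h⟩
    · refine ⟨false, ?_⟩
      have : {x | j x n = true}ᶜ = {x | j x n = false} := by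
        ext x
        simp
      rw [← this]; exact h
  choose b hb using h2
  have h3 : ⋂₀ (range fun n : ℕ => {x | j x n = b n}) ∈ U := by
    apply hU2
    · rintro _ ⟨n, rfl⟩
      exact hb n
    · refine lt_of_le_of_lt ?_ hκ
      exact mk_le_aleph0_iff.2 (countable_range _)
  have h4 : (⋂₀ (range fun n : ℕ => {x | j x n = b n})).Nonempty := U.nonempty_of_mem h3
  obtain ⟨x, hx⟩ := h4
  apply hU1 x
  refine mem_of_superset h3 ?_
  intro y hy
  apply hj
  funext n
  have hx' : j x n = b n := hx _ (mem_range_self n)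
  have hy' : j y n = b n := hy _ (mem_range_self n)
  rw [hx', hy']

end Run7.h660
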