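import Mathlib
import Pool.Agent.Run7.h660.Space

/-! The two-valued Borel measure and the failure of the Radon property. -/

open Set Filter MeasureTheory

namespace Run7.h660

/-- The two-valued outer measure of a countably complete filter. -/
noncomputable def om {X : Type} (F : Filter X) [CountableInterFilter F] : OuterMeasure X := by
  classical
  exact
  { measureOf := fun s => if sᶜ ∈ F then 0 else 1
    empty := by simp
    mono := by
      intro s t hst
      by_cases ht : tᶜ ∈ F
      · have hs : sᶜ ∈ F := mem_of_superset ht (compl_subset_compl.2 hst)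
        simp [ht, hs]
      · simp only [ht, if_false]
        split_ifs <;> simp
    iUnion_nat := by
      intro s _
      by_cases h : ∀ n, (s n)ᶜ ∈ F
      · have : (⋃ n, s n)ᶜ ∈ F := by
          rw [compl_iUnion, countable_iInter_mem]
          exact h
        rw [if_pos this]
        exact bot_le
      · push Not at h
        obtain ⟨n, hn⟩ := h
        refine le_trans ?_ (ENNReal.le_tsum n)
        simp only [hn, if_false]
        split_ifs <;> simp }

lemma om_zero {X : Type} (F : Filter X) [CountableInterFilter F] {s : Set X} (hs : sᶜ ∈ F) :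
    om F s = 0 := by
  classical
  show (if sᶜ ∈ F then (0 : ENNReal) else 1) = 0
  rw [if_pos hs]

lemma om_one {X : Type} (F : Filter X) [CountableInterFilter F] {s : Set X} (hs : sᶜ ∉ F) :
    om F s = 1 := by
  classical
  show (if sᶜ ∈ F then (0 : ENNReal) else 1) = 1
  rw [if_neg hs]

lemma om_caratheodory {X : Type} (F : Filter X) [CountableInterFilter F] {s : Set X}
    (hs : s ∈ F ∨ sᶜ ∈ F) : MeasurableSet[(om F).caratheodory] s := by
  rw [OuterMeasure.isCaratheodory_iff_le]
  intro t
  rcases hs with hs | hs
  · have h1 : om F (t \ s) = 0 := by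
      apply om_zero
      refine mem_of_superset hs ?_
      intro x hx hx2
      exact hx2.2 hx
    rw [h1, add_zero]
    exact (om F).mono inter_subset_left
  · have h1 : om F (t ∩ s) = 0 := by
      apply om_zero
      refine mem_of_superset hs ?_
      intro x hx hx2
      exact hx hx2.2
    rw [h1, zero_add]
    exact (om F).mono sdiff_subset

/-- If a proper countably complete filter on a topological space decides all open sets, contains
a set `O` which is open, and every point of `O` has an open neighbourhood whose complement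
belongs to the filter, then the space is not a Radon space. -/
theorem not_radon {X : Type} [TopologicalSpace X] (F : Filter X) [CountableInterFilter F]
    [NeBot F] (hdec : ∀ W : Set X, IsOpen W → W ∈ F ∨ Wᶜ ∈ F) (O : Set X) (hO : IsOpen O)
    (hOF : O ∈ F) (hloc : ∀ x ∈ O, ∃ V : Set X, IsOpen V ∧ x ∈ V ∧ Vᶜ ∈ F) :
    ¬ IsRadonSpace X := by
  intro hR
  have hle : borel X ≤ (om F).caratheodory := by
    unfold borel
    apply MeasurableSpace.generateFrom_le
    intro W hW
    exact om_caratheodory F (hdec W hW)
  let _ : MeasurableSpace X := borel X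
  set μ : Measure X := (om F).toMeasure hle with hμ
  have hmeas : ∀ B : Set X, MeasurableSet B → μ B = om F B := fun B hB =>
    toMeasure_apply _ hle hB
  have hOm : MeasurableSet O := MeasurableSpace.measurableSet_generateFrom hO
  have huniv : μ univ < ⊤ := by
    rw [hmeas _ MeasurableSet.univ, om_one]
    · exact ENNReal.one_lt_top
    · rw [compl_univ]
      exact empty_notMem F
  have h1 : μ O = 1 := by
    rw [hmeas _ hOm, om_one]
    intro hc
    exact empty_notMem F (by simpa using inter_mem hOF hc)
  have h2 := hR μ huniv O hOm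
  have h3 : sSup {r | ∃ K : Set X, K ⊆ O ∧ IsCompact K ∧ r = μ K} = 0 := by
    rw [sSup_eq_bot.2]
    · rfl
    rintro r ⟨K, hKO, hK, rfl⟩
    show μ K = 0
    -- cover by finitely many null open sets
    choose V hV1 hV2 hV3 using hloc
    obtain ⟨t, ht⟩ := hK.elim_finite_subcover (fun x : O => V x.1 x.2) (fun x => hV1 x.1 x.2)
      (fun x hx => mem_iUnion.2 ⟨⟨x, hKO hx⟩, hV2 x (hKO hx)⟩)
    refine measure_mono_null ht ?_
    refine (measure_biUnion_null_iff t.countable_toSet).2 ?_
    intro x _
    rw [hmeas _ (MeasurableSpace.measurableSet_generateFrom (hV1 x.1 x.2))]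
    exact om_zero F (hV3 x.1 x.2)
  rw [h1, h3] at h2
  exact one_ne_zero h2

theorem sp_not_radon {I : Type} [LinearOrder I] {e : I → I → ℕ} (hI : ∀ b : I, (Iic b).Countable)
    (hunc : ¬ (univ : Set I).Countable)
    (he : ∀ (b : I) (N : ℕ), {a | a < b ∧ e b a < N}.Finite) : ¬ IsRadonSpace (Sp e) := by
  have := neBot hI hunc he
  refine not_radon (FF e) (fun W hW => open_decided e hW) (LL e (S0 I)) ?_ ?_ ?_
  · have : LL e (S0 I) = ⋃ i : I, {x : Sp e | i ∈ supp x.1} := by
      ext x
      simp only [LL, S0, mem_ofPred_eq, mem_iUnion]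
      constructor
      · rintro ⟨p, ⟨i, rfl⟩, hx⟩
        exact ⟨i, hx.1 (by simp)⟩
      · rintro ⟨i, hi⟩
        exact ⟨({i}, ∅), ⟨i, rfl⟩, by simpa using hi, by simp⟩
    rw [this]
    exact isOpen_iUnion fun i => (isClopen_coord e i).isOpen
  · exact CountableGenerateSets.basic (Or.inr ⟨_, sys_S0 hunc, rfl⟩)
  · rintro x ⟨p, ⟨i, rfl⟩, hx⟩
    refine ⟨{x : Sp e | i ∈ supp x.1}, (isClopen_coord e i).isOpen, hx.1 (by simp), ?_⟩
    exact CountableGenerateSets.basic (Or.inl ⟨i, rfl⟩)

end Run7.h660
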