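import Pool.Agent.Run7.h968.TN.Rel

/-!
# Project TN (helper968): the piece rel
-/

set_option autoImplicit false

namespace Pool.Agent.Run7.h660.TN

open MeasureTheory Pool.Agent.W336.CS Pool.Agent.Run7.h968.TN

/-- infinitely many elements of `H` fix `z` -/
theorem inf_fix {G : Type} [Group G] (H K : Subgroup G) (hHK : H ≤ K) (hH : (H : Set G).Infinite)
    (K' : Subgroup K) (hf : K'.FiniteIndex) (z : K ⧸ K') :
    ∃ f : ℕ → H, Function.Injective f ∧ ∀ i, (⟨(f i : G), hHK (f i).2⟩ : K) • z = z := by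
  have : Finite (K ⧸ K') := Subgroup.finite_quotient_of_finiteIndex
  have hHi : Infinite H := Set.infinite_coe_iff.2 hH
  let F : H → K ⧸ K' := fun h => (⟨(h : G), hHK h.2⟩ : K) • z
  obtain ⟨z', hz'⟩ := Finite.exists_infinite_fiber F
  obtain ⟨h0⟩ : Nonempty (F ⁻¹' {z'}) := inferInstance
  have h0z : (⟨((h0 : H) : G), hHK (h0 : H).2⟩ : K) • z = z' := h0.2
  have hS : ({h : H | F h = z} : Set H).Infinite := by
    refine Set.infinite_of_injective_forall_mem (f := fun h : F ⁻¹' {z'} => (h0 : H)⁻¹ * (h : H))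
      (fun a b hab => ?_) (fun h => ?_)
    · exact Subtype.ext (mul_left_cancel hab)
    · have h1 : (⟨((h : H) : G), hHK (h : H).2⟩ : K) • z = z' := h.2
      show (⟨(((h0 : H)⁻¹ * (h : H) : H) : G), _⟩ : K) • z = z
      have h2 : (⟨(((h0 : H)⁻¹ * (h : H) : H) : G), hHK ((h0 : H)⁻¹ * (h : H)).2⟩ : K) =
          (⟨((h0 : H) : G), hHK (h0 : H).2⟩ : K)⁻¹ * ⟨((h : H) : G), hHK (h : H).2⟩ := rfl
      rw [h2, mul_smul, h1]
      exact inv_smul_eq_iff.2 h0z.symm
  refine ⟨fun i => (hS.natEmbedding _ i : H), fun i j hij => ?_, fun i => ?_⟩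
  · exact (hS.natEmbedding _).injective (Subtype.ext hij)
  · exact (hS.natEmbedding _ i).2

section
variable {G : Type} [Group G] (H K : Subgroup G)
  (K' : Subgroup K) (T : Finset K) (r : K ⧸ K' → K)

/-- the good configurations of the percolation -/
def GoodC (η : Cfg G) : Prop := ∀ (x : G) (z : K ⧸ K'), ∃ h : K, (h : G) ∈ H ∧ h • z = z ∧
  η ((h : G) * x, ((r z)⁻¹ : K)) = true

theorem good_ae [Countable G] (hHK : H ≤ K) (hHi : (H : Set G).Infinite) (hf : K'.FiniteIndex) (q : G → unitInterval)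
    (hq : ∀ z, 0 < (q ((r z)⁻¹ : K) : ℝ)) : ∀ᵐ η ∂(perc q), GoodC H K K' r η := by
  have : Finite (K ⧸ K') := Subgroup.finite_quotient_of_finiteIndex
  unfold GoodC
  rw [ae_all_iff]
  intro x
  rw [ae_all_iff]
  intro z
  obtain ⟨f, hf1, hf2⟩ := inf_fix H K hHK hHi K' hf z
  have h := Pool.Agent.W401.CS.open_ae G q _ (hq z) 1
    (fun i => {((f i : G) * x, (((r z)⁻¹ : K) : G))}) ?_ ?_ ?_
  · filter_upwards [h] with η hη
    obtain ⟨i, hi⟩ := hη
    exact ⟨⟨(f i : G), hHK (f i).2⟩, (f i).2, hf2 i, hi _ (Finset.mem_singleton_self _)⟩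
  · intro i j hij
    rw [Finset.disjoint_singleton]
    intro h1
    apply hij
    apply hf1
    have h2 := (Prod.mk.injEq _ _ _ _ ▸ h1 : _ ∧ _).1
    exact Subtype.ext (mul_right_cancel h2)
  · intro i
    exact (Finset.card_singleton _).le
  · intro i e he
    rw [Finset.mem_singleton] at he
    rw [he]

open Classical in
/-- the configuration -/
noncomputable def zeta (y : G → K ⧸ K') (η : Cfg G) : Cfg G := fun e =>
  decide ((y e.1 = ((1 : K) : K ⧸ K') ∧ ∃ t ∈ T, (t : G) = e.2) ∨ η e = true)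

theorem zeta_iff (y : G → K ⧸ K') (η : Cfg G) (a s : G) :
    zeta K K' T y η (a, s) = true ↔
      (y a = ((1 : K) : K ⧸ K') ∧ ∃ t ∈ T, (t : G) = s) ∨ η (a, s) = true := by
  unfold zeta
  simp

theorem conn_zeta (hT : Subgroup.closure (T : Set K) = K')
    (hr : ∀ z, ((r z : K) : K ⧸ K') = z) (y : G → K ⧸ K')
    (hy : ∀ (s : K) x, y (s * x) = s • y x) (η : Cfg G) (hη : GoodC H K K' r η)
    (a : G) (s : G) (hs : s ∈ K) : Conn (H : Set G) (zeta K K' T y η) a (s * a) := by
  have hrz : ∀ z : K ⧸ K', (r z)⁻¹ • z = ((1 : K) : K ⧸ K') := fun z => by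
    calc (r z)⁻¹ • z = (r z)⁻¹ • ((r z : K) : K ⧸ K') := by rw [hr]
      _ = (((r z)⁻¹ * r z : K) : K ⧸ K') := rfl
      _ = ((1 : K) : K ⧸ K') := by rw [inv_mul_cancel]
  -- every point is connected to a root point
  have h1 : ∀ x : G, ∃ u : K, y (u * x) = ((1 : K) : K ⧸ K') ∧
      Conn (H : Set G) (zeta K K' T y η) x (u * x) := by
    intro x
    obtain ⟨h, hH, hz, ho⟩ := hη x (y x)
    refine ⟨(r (y x))⁻¹ * h, ?_, ?_⟩
    · rw [hy, mul_smul, hz]
      exact hrz _
    · refine (Conn.base (u := (h : G)) hH x).trans ?_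
      have h2 : Conn (H : Set G) (zeta K K' T y η) ((h : G) * x)
          ((((r (y x))⁻¹ : K) : G) * ((h : G) * x)) :=
        Conn.edge ((zeta_iff K K' T y η _ _).2 (Or.inr ho))
      rwa [← mul_assoc, ← Subgroup.coe_mul] at h2
  have hK' : ∀ u ∈ K', ∀ a : G, y a = ((1 : K) : K ⧸ K') →
      y ((u : G) * a) = ((1 : K) : K ⧸ K') := by
    intro u hu a ha
    rw [hy, ha]
    show ((u * 1 : K) : K ⧸ K') = _
    rw [QuotientGroup.eq, mul_one, mul_one]
    exact K'.inv_mem hu
  have h2 : ∀ u ∈ Subgroup.closure (T : Set K), ∀ a : G, y a = ((1 : K) : K ⧸ K') →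
      Conn (H : Set G) (zeta K K' T y η) a ((u : G) * a) := by
    intro u hu
    induction hu using Subgroup.closure_induction with
    | mem x hx =>
      intro a ha
      exact Conn.edge ((zeta_iff K K' T y η _ _).2 (Or.inl ⟨ha, x, hx, rfl⟩))
    | one =>
      intro a _
      rw [Subgroup.coe_one, one_mul]
      exact Conn.refl _ _ _
    | mul x z hx hz ihx ihz =>
      intro a ha
      rw [Subgroup.coe_mul, mul_assoc]
      exact (ihz a ha).trans (ihx ((z : G) * a) (hK' z (hT ▸ hz) a ha))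
    | inv x hx ih =>
      intro a ha
      have h3 := ih (((x⁻¹ : K) : G) * a) (hK' x⁻¹ (K'.inv_mem (hT ▸ hx)) a ha)
      have h4 : (x : G) * (((x⁻¹ : K) : G) * a) = a := by
        rw [Subgroup.coe_inv, mul_inv_cancel_left]
      rw [h4] at h3
      exact h3.symm
  obtain ⟨u, hu1, hu2⟩ := h1 a
  obtain ⟨v, hv1, hv2⟩ := h1 (s * a)
  refine hu2.trans (Conn.trans ?_ hv2.symm)
  set w : K := v * ⟨s, hs⟩ * u⁻¹ with hw
  have e1 : (w : G) * ((u : G) * a) = (v : G) * (s * a) := by
    rw [hw]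
    push_cast
    group
  have hwK : w ∈ K' := by
    have h5 : y ((w : G) * ((u : G) * a)) = ((1 : K) : K ⧸ K') := by rw [e1]; exact hv1
    rw [hy, hu1] at h5
    have h6 : ((w * 1 : K) : K ⧸ K') = ((1 : K) : K ⧸ K') := h5
    rw [QuotientGroup.eq, mul_one, mul_one] at h6
    have h7 := K'.inv_mem h6
    rwa [inv_inv] at h7
  have h8 := h2 w (by rw [hT]; exact hwK) ((u : G) * a) hu1
  rwa [e1] at h8

end

theorem t_rel (hco : P_coind) : P_rel := by
  classical
  intro G _ _ H K hHK hHi K' T hfi hT p hp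
  obtain ⟨Ω, mΩ, P, hP, τ, y, hτ, hym, hyτ, hyK, hyu⟩ := hco G K K' hfi
  have hfin : Finite (K ⧸ K') := Subgroup.finite_quotient_of_finiteIndex
  let _ : Fintype (K ⧸ K') := Fintype.ofFinite _
  let r : K ⧸ K' → K := fun z => z.out
  have hr : ∀ z, ((r z : K) : K ⧸ K') = z := fun z => QuotientGroup.out_eq' z
  -- the weights
  let S : Finset G := Finset.univ.image fun z : K ⧸ K' => (((r z)⁻¹ : K) : G)
  have hS0 : 0 < S.card := Finset.card_pos.2
    ⟨_, Finset.mem_image_of_mem _ (Finset.mem_univ ((1 : K) : K ⧸ K'))⟩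
  set p' : ENNReal := min p 1 with hp'
  have hp'1 : p' ≤ 1 := min_le_right _ _
  have hp'0 : 0 < p' := lt_min hp one_pos
  have hp't : p' ≠ ⊤ := ne_top_of_le_ne_top ENNReal.one_ne_top hp'1
  set ρ : ℝ := p'.toReal / S.card with hρ
  have hSr : (0 : ℝ) < S.card := by exact_mod_cast hS0
  have hρ0 : 0 < ρ := div_pos (ENNReal.toReal_pos hp'0.ne' hp't) hSr
  have hρ1 : ρ ≤ 1 := by
    rw [hρ, div_le_one hSr]
    have h1 : p'.toReal ≤ 1 := by
      have := ENNReal.toReal_mono ENNReal.one_ne_top hp'1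
      simpa using this
    have h2 : (1 : ℝ) ≤ S.card := by exact_mod_cast hS0
    linarith
  let q : G → unitInterval := fun s => if s ∈ S then ⟨ρ, hρ0.le, hρ1⟩ else 0
  have hq : ∀ z, 0 < (q ((r z)⁻¹ : K) : ℝ) := by
    intro z
    have : (((r z)⁻¹ : K) : G) ∈ S := Finset.mem_image_of_mem _ (Finset.mem_univ z)
    show (0 : ℝ) < ((if (((r z)⁻¹ : K) : G) ∈ S then (⟨ρ, hρ0.le, hρ1⟩ : unitInterval) else 0 :
      unitInterval) : ℝ)
    rw [if_pos this]
    exact hρ0
  -- the measure
  let m : Measure (Ω × Cfg G) := P.prod (perc q)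
  let Z : Ω × Cfg G → Cfg G := fun w => zeta K K' T (fun x => y x w.1) w.2
  have hmη : ∀ e : G × G, MeasurableSet {η : Cfg G | η e = true} := fun e =>
    measurableSet_eq_fun (measurable_pi_apply _) measurable_const
  have hZe : ∀ a s : G, {w : Ω × Cfg G | Z w (a, s) = true} =
      (if ∃ t ∈ T, (t : G) = s then Prod.fst ⁻¹' {w | y a w = ((1 : K) : K ⧸ K')} else ∅) ∪
        Prod.snd ⁻¹' {η : Cfg G | η (a, s) = true} := by
    intro a s
    ext w
    show zeta K K' T (fun x => y x w.1) w.2 (a, s) = true ↔ _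
    rw [zeta_iff]
    by_cases h : ∃ t ∈ T, (t : G) = s
    · rw [if_pos h]
      constructor
      · rintro (⟨h1, -⟩ | h1)
        · exact Or.inl h1
        · exact Or.inr h1
      · rintro (h1 | h1)
        · exact Or.inl ⟨h1, h⟩
        · exact Or.inr h1
    · rw [if_neg h, Set.empty_union]
      constructor
      · rintro (⟨-, h1⟩ | h1)
        · exact absurd h1 h
        · exact h1
      · intro h1
        exact Or.inr h1
  have hZm : Measurable Z := by
    refine measurable_pi_lambda _ fun e => ?_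
    obtain ⟨a, s⟩ := e
    refine measurable_to_bool ?_
    show MeasurableSet {w : Ω × Cfg G | Z w (a, s) = true}
    rw [hZe]
    refine MeasurableSet.union ?_ (measurable_snd (hmη _))
    split_ifs
    · exact measurable_fst (hym _ _)
    · exact MeasurableSet.empty
  refine ⟨m.map Z, Measure.isProbabilityMeasure_map hZm.aemeasurable, ?_, ?_, ?_⟩
  · -- invariance
    intro h
    have h1 : MeasurePreserving (fun w : Ω × Cfg G => (τ h w.1, shift h w.2)) m m :=
      (hτ h).prod (Inv.mp (Pool.Agent.W401.CS.percInv G q) h)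
    have h2 : shift h ∘ Z = Z ∘ fun w : Ω × Cfg G => (τ h w.1, shift h w.2) := by
      funext w
      funext e
      show zeta K K' T (fun x => y x w.1) w.2 (e.1 * h, e.2) =
        zeta K K' T (fun x => y x (τ h w.1)) (shift h w.2) e
      unfold zeta shift
      simp only [hyτ]
    rw [Measure.map_map (measurable_shift h) hZm, h2, ← Measure.map_map hZm h1.measurable, h1.map_eq]
  · -- cost
    unfold cost
    have h1 : ∀ s : G, (m.map Z) {ω | ω (1, s) = true} ≤
        (if s ∈ T.image (fun t : K => (t : G)) then (K'.index : ENNReal)⁻¹ else 0) +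
          (if s ∈ S then ENNReal.ofReal ρ else 0) := by
      intro s
      rw [Measure.map_apply hZm (hmη _)]
      show m {w : Ω × Cfg G | Z w (1, s) = true} ≤ _
      rw [hZe]
      refine (measure_union_le _ _).trans (add_le_add ?_ ?_)
      · by_cases h : ∃ t ∈ T, (t : G) = s
        · rw [if_pos h, if_pos (Finset.mem_image.2 h)]
          have h3 : m (Prod.fst ⁻¹' {w | y 1 w = ((1 : K) : K ⧸ K')}) =
              P {w | y 1 w = ((1 : K) : K ⧸ K')} := by
            have h4 : (Prod.fst ⁻¹' {w | y 1 w = ((1 : K) : K ⧸ K')} : Set (Ω × Cfg G)) =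
                {w | y 1 w = ((1 : K) : K ⧸ K')} ×ˢ Set.univ := by
              ext w
              simp
            rw [h4, Measure.prod_prod, measure_univ, mul_one]
          rw [h3, hyu]
        · rw [if_neg h, measure_empty]
          exact zero_le
      · have h3 : m (Prod.snd ⁻¹' {η : Cfg G | η (1, s) = true}) =
            perc q {η : Cfg G | η (1, s) = true} := by
          have h4 : (Prod.snd ⁻¹' {η : Cfg G | η (1, s) = true} : Set (Ω × Cfg G)) =
              Set.univ ×ˢ {η : Cfg G | η (1, s) = true} := by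
            ext w
            simp
          rw [h4, Measure.prod_prod, measure_univ, one_mul]
        rw [h3, perc_edge Pool.Agent.W401.CS.resample]
        show ENNReal.ofReal ((if s ∈ S then (⟨ρ, hρ0.le, hρ1⟩ : unitInterval) else 0 :
          unitInterval) : ℝ) ≤ _
        split_ifs
        · exact le_rfl
        · simp
    refine (ENNReal.tsum_le_tsum h1).trans ?_
    rw [ENNReal.tsum_add]
    refine add_le_add ?_ ?_
    · rw [tsum_eq_sum (s := T.image (fun t : K => (t : G))) (fun s hs => if_neg hs),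
        Finset.sum_congr rfl fun s hs => if_pos hs, Finset.sum_const, nsmul_eq_mul,
        ENNReal.div_eq_inv_mul, mul_comm]
      refine mul_le_mul_right ?_ _
      exact_mod_cast Finset.card_image_le
    · rw [tsum_eq_sum (s := S) (fun s hs => if_neg hs),
        Finset.sum_congr rfl fun s hs => if_pos hs, Finset.sum_const, nsmul_eq_mul]
      have h2 : (S.card : ENNReal) * ENNReal.ofReal ρ = p' := by
        rw [← ENNReal.ofReal_natCast, ← ENNReal.ofReal_mul (Nat.cast_nonneg _), hρ,
          mul_div_cancel₀ _ hSr.ne', ENNReal.ofReal_toReal hp't]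
      rw [h2]
      exact min_le_left _ _
  · -- connectivity
    have hmeas : MeasurableSet {ω : Cfg G | ∀ g : G, ∀ s ∈ (K : Set G), Conn (H : Set G) ω g (s * g)} := by
      have h1 : {ω : Cfg G | ∀ g : G, ∀ s ∈ (K : Set G), Conn (H : Set G) ω g (s * g)} =
          ⋂ g : G, ⋂ s : G, ⋂ _ : s ∈ (K : Set G), {ω : Cfg G | Conn (H : Set G) ω g (s * g)} := by
        ext ω
        simp
      rw [h1]
      exact MeasurableSet.iInter fun g => MeasurableSet.iInter fun s => MeasurableSet.iInter fun _ =>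
        measurableSet_conn _ _ _
    rw [ae_map_iff hZm.aemeasurable hmeas]
    have h2 : ∀ᵐ w ∂m, GoodC H K K' r w.2 :=
      Measure.quasiMeasurePreserving_snd.ae (good_ae H K K' r hHK hHi hfi q hq)
    filter_upwards [h2] with w hw
    intro g s hs
    exact conn_zeta H K K' T r hT hr (fun x => y x w.1) (fun s x => hyK s x w.1) w.2 hw g s hs

end Pool.Agent.Run7.h660.TN
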